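import Mathlib

/-!
# Dominating sets and the domatic number
-/

namespace Pool.Agent.Lib.MP_7b5b6d_co

open SimpleGraph Classical

universe u

/-- `S` is a dominating set of the graph `H`: every vertex is in `S` or adjacent to a vertex
of `S`. -/
def IsDominating {α : Type u} (H : SimpleGraph α) (S : Finset α) : Prop :=
  ∀ v, v ∈ S ∨ ∃ w ∈ S, H.Adj v w

/-- The domatic number of a finite graph `H`: the largest `m` such that the vertex set has a
partition into `m` dominating sets. -/
noncomputable def domaticNumber {α : Type u} [Fintype α] (H : SimpleGraph α) : ℕ :=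
  sSup {m : ℕ | ∃ P : Finpartition (Finset.univ : Finset α),
    P.parts.card = m ∧ ∀ S ∈ P.parts, IsDominating H S}

end Pool.Agent.Lib.MP_7b5b6d_co
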