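import Pool.Agent.Lib.MP_7b5b6d_co.Main
import Pool.Agent.Lib.MP_7b5b6d_co.Defs

/-!
# Domatic numbers and Zelinka's inequality
-/

namespace Pool.Agent.Lib.MP_7b5b6d_co

open SimpleGraph Classical

universe u

/-- The set of which `domaticNumber` is the supremum is bounded. -/
theorem bddAbove_domatic {α : Type u} [Fintype α] (H : SimpleGraph α) :
    BddAbove {m : ℕ | ∃ P : Finpartition (Finset.univ : Finset α),
      P.parts.card = m ∧ ∀ S ∈ P.parts, IsDominating H S} := by
  refine ⟨Fintype.card α, ?_⟩
  rintro m ⟨P, rfl, -⟩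
  exact P.card_parts_le_card

/-- A partition into `k` dominating sets from a colouring with `k` colours all of whose colour
classes are nonempty and dominating. -/
theorem le_domaticNumber {α : Type u} [Fintype α] (H : SimpleGraph α) {K : Type} [Fintype K]
    (f : α → K) (hne : ∀ κ, ∃ a, f a = κ)
    (hdom : ∀ κ v, f v = κ ∨ ∃ w, f w = κ ∧ H.Adj v w) :
    Fintype.card K ≤ domaticNumber H := by
  let part : K → Finset α := fun κ => Finset.univ.filter (fun a => f a = κ)
  have hmem : ∀ κ a, a ∈ part κ ↔ f a = κ := by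
    intro κ a; simp [part]
  have hinj : Function.Injective part := by
    intro κ κ' h
    obtain ⟨a, ha⟩ := hne κ
    have h1 : a ∈ part κ' := by rw [← h, hmem]; exact ha
    rw [hmem] at h1
    rw [← ha, h1]
  let P : Finpartition (Finset.univ : Finset α) :=
    { parts := Finset.univ.image part
      supIndep := by
        rw [Finset.supIndep_iff_pairwiseDisjoint]
        intro S hS T hT hST
        simp only [Finset.coe_image, Finset.coe_univ, Set.image_univ, Set.mem_range] at hS hT
        obtain ⟨κ, rfl⟩ := hS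
        obtain ⟨κ', rfl⟩ := hT
        show Disjoint (part κ) (part κ')
        rw [Finset.disjoint_left]
        intro a ha ha'
        rw [hmem] at ha ha'
        exact hST (by rw [← ha, ← ha'])
      sup_parts := by
        apply Finset.eq_univ_of_forall
        intro a
        rw [Finset.mem_sup]
        exact ⟨part (f a), Finset.mem_image_of_mem _ (Finset.mem_univ _), (hmem _ _).mpr rfl⟩
      bot_notMem := by
        intro h
        rw [Finset.mem_image] at h
        obtain ⟨κ, _, hκ⟩ := h
        obtain ⟨a, ha⟩ := hne κ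
        have : a ∈ part κ := (hmem _ _).mpr ha
        rw [hκ] at this
        exact absurd this (Finset.notMem_empty a) }
  apply le_csSup (bddAbove_domatic H)
  refine ⟨P, ?_, ?_⟩
  · show (Finset.univ.image part).card = _
    rw [Finset.card_image_of_injective _ hinj, Finset.card_univ]
  · intro S hS
    have hS' : S ∈ Finset.univ.image part := hS
    rw [Finset.mem_image] at hS'
    obtain ⟨κ, _, rfl⟩ := hS'
    intro v
    rcases hdom κ v with h | ⟨w, hw, hadj⟩
    · exact Or.inl ((hmem _ _).mpr h)
    · exact Or.inr ⟨w, (hmem _ _).mpr hw, hadj⟩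

/-- Zelinka's inequality. -/
theorem zelinka {V : Type u} [Fintype V] (G : SimpleGraph V) :
    G.minDegree ≤ domaticNumber G.lineGraph := by
  rcases Nat.eq_zero_or_pos G.minDegree with h0 | h0
  · rw [h0]; exact Nat.zero_le _
  have hK : Nonempty (Fin G.minDegree) := ⟨⟨0, h0⟩⟩
  have hdeg : ∀ v, Fintype.card (Fin G.minDegree) ≤ G.degree v := by
    intro v
    rw [Fintype.card_fin]
    exact G.minDegree_le_degree v
  obtain ⟨W, c, hW, hc⟩ := main_colouring (K := Fin G.minDegree) G hdeg
  -- `V` is nonempty
  have hV : Nonempty V := by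
    by_contra hV
    rw [not_nonempty_iff] at hV
    have : G.minDegree = 0 := by simp
    omega
  obtain ⟨v₀⟩ := hV
  -- `W` is nonempty
  have hWne : ∃ w, w ∈ W := by
    have h1 : 0 < G.degree v₀ := lt_of_lt_of_le h0 (G.minDegree_le_degree v₀)
    obtain ⟨a, ha⟩ := (degree_pos_iff_exists_adj G v₀).mp h1
    rcases hW v₀ a ha with h | h
    · exact ⟨_, h⟩
    · exact ⟨_, h⟩
  obtain ⟨w₀, hw₀⟩ := hWne
  have key := le_domaticNumber G.lineGraph (K := Fin G.minDegree) (fun e => c e.1) ?_ ?_
  · rwa [Fintype.card_fin] at key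
  · intro κ
    obtain ⟨a, ha, hca⟩ := hc w₀ hw₀ κ
    exact ⟨⟨s(w₀, a), ha⟩, hca⟩
  · rintro κ ⟨e, he⟩
    by_cases hce : c e = κ
    · exact Or.inl hce
    · right
      -- an endpoint of `e` in `W`
      have hex : ∃ w ∈ W, w ∈ e := by
        induction e using Sym2.ind with
        | _ a b =>
          rcases hW a b he with h | h
          · exact ⟨a, h, Sym2.mem_mk_left _ _⟩
          · exact ⟨b, h, Sym2.mem_mk_right _ _⟩
      obtain ⟨w, hw, hwe⟩ := hex
      obtain ⟨a, ha, hca⟩ := hc w hw κ
      refine ⟨⟨s(w, a), ha⟩, hca, ?_⟩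
      rw [lineGraph_adj_iff_exists]
      refine ⟨?_, w, hwe, Sym2.mem_mk_left _ _⟩
      intro h
      apply hce
      have h2 : e = s(w, a) := congrArg Subtype.val h
      rw [h2]
      exact hca

end Pool.Agent.Lib.MP_7b5b6d_co
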