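import Pool.Agent.Lib.MP_7b5b6d_co.Vizing

/-!
# Vizing's theorem: the fan argument
-/

namespace Pool.Agent.Lib.MP_7b5b6d_co

open SimpleGraph Classical

universe u

variable {V : Type u} {K : Type}

/-- The successive colourings of a fan. -/
noncomputable def fanC (x : V) (y : ℕ → V) (μ : V → K) (c₀ : Sym2 V → K) : ℕ → Sym2 V → K
  | 0 => c₀
  | s + 1 => Function.update (fanC x y μ c₀ s) s(x, y s) (μ (y s))

theorem fanC_of_not_mem (x : V) (y : ℕ → V) (μ : V → K) (c₀ : Sym2 V → K) {e : Sym2 V}
    (he : x ∉ e) : ∀ s, fanC x y μ c₀ s e = c₀ e := by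
  intro s
  induction s with
  | zero => rfl
  | succ s ih =>
    rw [fanC, Function.update_of_ne, ih]
    rintro rfl
    exact he (Sym2.mem_mk_left _ _)

theorem fanC_of_ne (x : V) (y : ℕ → V) (μ : V → K) (c₀ : Sym2 V → K) {z : V} :
    ∀ s, (∀ i < s, y i ≠ z) → fanC x y μ c₀ s s(x, z) = c₀ s(x, z) := by
  intro s
  induction s with
  | zero => intro _; rfl
  | succ s ih =>
    intro h
    rw [fanC, Function.update_of_ne, ih (fun i hi => h i (by omega))]
    intro h'
    exact h s (by omega) (Sym2.congr_right.mp h').symm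

theorem fanC_eq (x : V) (y : ℕ → V) (μ : V → K) (c₀ : Sym2 V → K) :
    ∀ s i, i < s → (∀ j, i < j → j < s → y j ≠ y i) →
      fanC x y μ c₀ s s(x, y i) = μ (y i) := by
  intro s
  induction s with
  | zero => intro i hi; omega
  | succ s ih =>
    intro i hi h
    rcases Nat.lt_succ_iff_lt_or_eq.mp hi with hi' | hi'
    · rw [fanC, Function.update_of_ne, ih i hi' (fun j h1 h2 => h j h1 (by omega))]
      intro h'
      exact h s hi' (by omega) (Sym2.congr_right.mp h').symm
    · subst hi'
      rw [fanC, Function.update_self]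

theorem Hs_fanC (G : SimpleGraph V) (x : V) (y : ℕ → V) (μ : V → K) (c₀ : Sym2 V → K) (s : ℕ)
    (α β : K) : Hs G x (fanC x y μ c₀ s) α β = Hs G x c₀ α β := by
  ext u v
  constructor
  · rintro ⟨h1, h2, h3, h4⟩
    refine ⟨h1, h2, h3, ?_⟩
    rwa [fanC_of_not_mem] at h4
    simp [Sym2.mem_iff, h2.symm, h3.symm]
  · rintro ⟨h1, h2, h3, h4⟩
    refine ⟨h1, h2, h3, ?_⟩
    rwa [fanC_of_not_mem]
    simp [Sym2.mem_iff, h2.symm, h3.symm]

theorem exists_miss [Fintype V] [Fintype K] (G : SimpleGraph V) (x y : V) (c : Sym2 V → K)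
    (v : V) (hdeg : G.degree v < Fintype.card K) : ∃ κ, Miss G x y c v κ := by
  by_contra hno
  have hall : (Finset.univ : Finset K) ⊆ (G.neighborFinset v).image (fun a => c s(v, a)) := by
    intro κ _
    by_contra hκ
    apply hno
    refine ⟨κ, ?_⟩
    intro a ha _ hcol
    apply hκ
    rw [Finset.mem_image]
    exact ⟨a, by simpa using ha, hcol⟩
  have h1 := Finset.card_le_card hall
  have h2 : ((G.neighborFinset v).image (fun a => c s(v, a))).card ≤ G.degree v := by
    rw [← card_neighborFinset_eq_degree]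
    exact Finset.card_image_le
  rw [Finset.card_univ] at h1
  omega

/-- Main step of Vizing's theorem: a proper colouring of `G - xy₀` with more than `Δ(G)`
colours can be turned into a proper colouring of `G`. -/
theorem extend [Fintype V] [Fintype K] (G : SimpleGraph V) (x y₀ : V) (hxy : G.Adj x y₀)
    (c₀ : Sym2 V → K) (hc : PP G x y₀ c₀) (hdeg : ∀ v, G.degree v < Fintype.card K) :
    ∃ c : Sym2 V → K, Proper G c := by
  by_contra hno
  have hmiss : ∀ v, ∃ κ, Miss G x y₀ c₀ v κ := fun v => exists_miss G x y₀ c₀ v (hdeg v)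
  choose μ hμ using hmiss
  set α : K := μ x with hα
  -- the successor relation of the fan
  let P : V → V → Prop := fun v z => G.Adj x z ∧ z ≠ y₀ ∧ c₀ s(x, z) = μ v
  let next : V → V := fun v => if h : ∃ z, P v z then h.choose else y₀
  have hnext : ∀ v, (∃ z, P v z) → P v (next v) := by
    intro v h
    simp only [next, dif_pos h]
    exact h.choose_spec
  let y : ℕ → V := fun n => next^[n] y₀
  have hy0 : y 0 = y₀ := rfl
  have hysucc : ∀ n, y (n + 1) = next (y n) := by
    intro n
    simp only [y, Function.iterate_succ_apply']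
  let C : ℕ → Sym2 V → K := fanC x y μ c₀
  have hCsucc : ∀ n, C (n + 1) = Function.update (C n) s(x, y n) (μ (y n)) := fun n => rfl
  have missY : ∀ n, G.Adj x (y n) → Miss G x (y n) (C n) (y n) (μ (y n)) := by
    intro n hadj a ha hne
    have hax : a ≠ x := by
      rintro rfl
      exact hne Sym2.eq_swap
    have hyx : y n ≠ x := hadj.ne'
    have hmem : x ∉ s(y n, a) := by
      simp [Sym2.mem_iff, hax.symm, hyx.symm]
    have h1 : C n s(y n, a) = c₀ s(y n, a) := fanC_of_not_mem x y μ c₀ hmem n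
    rw [h1]
    apply hμ (y n) a ha
    intro h'
    apply hmem
    rw [h']
    exact Sym2.mem_mk_left _ _
  have inv : ∀ n, (∀ i j, i < j → j ≤ n → y i ≠ y j) →
      G.Adj x (y n) ∧ PP G x (y n) (C n) ∧ Miss G x (y n) (C n) x α ∧ P (y n) (y (n + 1)) := by
    intro n
    induction n using Nat.strong_induction_on with
    | _ n ih =>
      intro hinj
      have IH : ∀ i < n, G.Adj x (y i) ∧ PP G x (y i) (C i) ∧ Miss G x (y i) (C i) x α ∧
          P (y i) (y (i + 1)) := by
        intro i hi
        exact ih i hi (fun a b hab hb => hinj a b hab (by omega))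
      have step1 : G.Adj x (y n) ∧ PP G x (y n) (C n) ∧ Miss G x (y n) (C n) x α := by
        rcases n with _ | m
        · exact ⟨hxy, hc, hμ x⟩
        · obtain ⟨h1, h2, h3, h4⟩ := IH m (by omega)
          have hne : y (m + 1) ≠ y m := (hinj m (m + 1) (by omega) le_rfl).symm
          have hcol : C m s(x, y (m + 1)) = μ (y m) := by
            have h5 : C m s(x, y (m + 1)) = c₀ s(x, y (m + 1)) :=
              fanC_of_ne x y μ c₀ m (fun i hi => hinj i (m + 1) (by omega) le_rfl)
            rw [h5]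
            exact h4.2.2
          refine ⟨h4.1, ?_, ?_⟩
          · rw [hCsucc]
            exact shift_PP h2 (missY m h1) h4.1 hne hcol
          · rw [hCsucc]
            exact shift_Miss h4.1 hne hcol h3
      obtain ⟨s1, s2, s3⟩ := step1
      refine ⟨s1, s2, s3, ?_⟩
      rw [hysucc]
      apply hnext
      have hnm : ¬ Miss G x (y n) (C n) x (μ (y n)) := by
        intro hm
        exact hno ⟨_, proper_update s2 hm (missY n s1)⟩
      unfold Miss at hnm
      push Not at hnm
      obtain ⟨a, ha1, ha2, ha3⟩ := hnm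
      by_cases hex : ∃ i < n, y i = a
      · obtain ⟨i, hi, rfl⟩ := hex
        have h5 : C n s(x, y i) = μ (y i) :=
          fanC_eq x y μ c₀ n i hi (fun j h1 h2 => (hinj i j h1 (by omega)).symm)
        obtain ⟨_, _, _, h4⟩ := IH i hi
        refine ⟨y (i + 1), h4.1, h4.2.1, ?_⟩
        rw [h4.2.2, ← h5, ha3]
      · push Not at hex
        have h5 : C n s(x, a) = c₀ s(x, a) := fanC_of_ne x y μ c₀ n hex
        refine ⟨a, ha1, ?_, ?_⟩
        · rintro rfl
          rcases Nat.eq_zero_or_pos n with h0 | h0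
          · subst h0; exact ha2 rfl
          · exact hex 0 h0 rfl
        · rw [← h5, ha3]
  -- pigeonhole
  have hrep : ∃ T, ∃ s < T, y s = y T := by
    have := not_injective_infinite_finite y
    rw [Function.Injective] at this
    push Not at this
    obtain ⟨i, j, hij, hne⟩ := this
    rcases Nat.lt_or_gt_of_ne hne with h | h
    · exact ⟨j, i, h, hij⟩
    · exact ⟨i, j, h, hij.symm⟩
  obtain ⟨s, hsT, hsy⟩ := Nat.find_spec hrep
  have hmin : ∀ m < Nat.find hrep, ¬ ∃ s < m, y s = y m := fun m hm => Nat.find_min hrep hm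
  generalize Nat.find hrep = T at hsT hsy hmin
  obtain ⟨t, rfl⟩ : ∃ t, T = t + 1 := ⟨T - 1, by omega⟩
  have hinj : ∀ i j, i < j → j ≤ t → y i ≠ y j := by
    intro i j hij hj h
    exact hmin j (by omega) ⟨i, hij, h⟩
  obtain ⟨t1, t2, t3, t4⟩ := inv t hinj
  have hs0 : s ≠ 0 := by
    rintro rfl
    exact t4.2.1 (hsy.symm.trans hy0)
  obtain ⟨r, rfl⟩ : ∃ r, s = r + 1 := ⟨s - 1, by omega⟩
  obtain ⟨r1, r2, r3, r4⟩ := inv r (fun i j hij hj => hinj i j hij (by omega))
  have hβ : μ (y r) = μ (y t) := by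
    rw [← r4.2.2, ← t4.2.2, hsy]
  have hβ' : c₀ s(x, y (r + 1)) = μ (y t) := by rw [r4.2.2, hβ]
  have hne1 : y (r + 1) ≠ y r := (hinj r (r + 1) (by omega) (by omega)).symm
  have hne2 : y r ≠ y t := hinj r t (by omega) le_rfl
  have hne3 : y (r + 1) ≠ y t := by
    intro h
    have h1 : G.Adj (y t) x := t1.symm
    have h2 : y t ≠ y₀ := by rw [← h]; exact r4.2.1
    have h3 : s(y t, x) ≠ s(x, y₀) := by
      intro h'
      rw [Sym2.eq_swap] at h'
      exact h2 (Sym2.congr_right.mp h')
    apply hμ (y t) x h1 h3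
    rw [Sym2.eq_swap, ← h, hβ', h]
  -- the two Kempe chains
  have k1 : (Hs G x c₀ α (μ (y t))).Reachable (y (r + 1)) (y r) := by
    rw [← Hs_fanC G x y μ c₀ r]
    have hcol : C r s(x, y (r + 1)) = μ (y t) := by
      have h5 : C r s(x, y (r + 1)) = c₀ s(x, y (r + 1)) :=
        fanC_of_ne x y μ c₀ r (fun i hi => hinj i (r + 1) (by omega) (by omega))
      rw [h5, hβ']
    have hm : Miss G x (y r) (C r) (y r) (μ (y t)) := by
      rw [← hβ]; exact missY r r1
    exact kempe r2 r1 r3 hm hno r4.1 hne1 hcol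
  have k2 : (Hs G x c₀ α (μ (y t))).Reachable (y r) (y t) := by
    rw [← Hs_fanC G x y μ c₀ t]
    have hcol : C t s(x, y r) = μ (y t) := by
      have h5 : C t s(x, y r) = μ (y r) :=
        fanC_eq x y μ c₀ t r (by omega) (fun j h1 h2 => (hinj r j h1 (by omega)).symm)
      rw [h5, hβ]
    exact kempe t2 t1 t3 (missY t t1) hno r1 hne2 hcol
  have notmem : ∀ v w, v ≠ x → w ≠ x → s(v, w) ≠ s(x, y₀) := by
    intro v w hv hw h'
    have : x ∈ s(v, w) := by rw [h']; exact Sym2.mem_mk_left _ _
    rcases Sym2.mem_iff.mp this with h1 | h1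
    · exact hv h1.symm
    · exact hw h1.symm
  refine three_endpoints (Hs G x c₀ α (μ (y t))) (Hs_degree_le hc α (μ (y t)))
    (a := y r) (b := y (r + 1)) (c := y t) hne1.symm hne2 hne3 ?_ ?_ ?_ k1.symm k2
  · apply Hs_degree_le_one hc
    intro w hw hv hwx
    rw [← hβ]
    exact hμ (y r) w hw (notmem _ _ hv hwx)
  · apply Hs_degree_le_one hc
    intro w hw hv hwx h
    have h1 : G.Adj (y (r + 1)) x := r4.1.symm
    refine hc (y (r + 1)) w x hw h1 hwx (notmem _ _ hv hwx) ?_ ?_
    · intro h'
      rw [Sym2.eq_swap] at h'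
      exact r4.2.1 (Sym2.congr_right.mp h')
    · rw [h, Sym2.eq_swap, hβ']
  · apply Hs_degree_le_one hc
    intro w hw hv hwx
    exact hμ (y t) w hw (notmem _ _ hv hwx)

/-- **Vizing's theorem**: a finite simple graph all of whose degrees are smaller than the
number of colours has a proper edge colouring. -/
theorem vizing [Fintype V] [Fintype K] : ∀ (n : ℕ) (G : SimpleGraph V),
    G.edgeFinset.card = n → (∀ v, G.degree v < Fintype.card K) →
    ∃ c : Sym2 V → K, Proper G c := by
  intro n
  induction n with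
  | zero =>
    intro G hG hdeg
    have hG' : G = ⊥ := by
      rw [Finset.card_eq_zero] at hG
      rw [← edgeFinset_eq_empty]
      exact hG
    rcases isEmpty_or_nonempty V with hV | ⟨⟨v⟩⟩
    · refine ⟨fun e => ?_, fun v => (hV.false v).elim⟩
      exact (hV.false (e.out.1)).elim
    · have hK : 0 < Fintype.card K := lt_of_le_of_lt (Nat.zero_le _) (hdeg v)
      obtain ⟨κ⟩ := Fintype.card_pos_iff.mp hK
      refine ⟨fun _ => κ, ?_⟩
      intro v a b ha
      rw [hG'] at ha
      exact ha.elim
  | succ n ih =>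
    intro G hG hdeg
    have hne : G.edgeFinset.Nonempty := by
      rw [← Finset.card_pos]; omega
    obtain ⟨e, he⟩ := hne
    induction e using Sym2.ind with
    | _ x y =>
      have hxy : G.Adj x y := by simpa using he
      obtain ⟨G', hG'⟩ : ∃ G' : SimpleGraph V, G' = G.deleteEdges {s(x, y)} := ⟨_, rfl⟩
      have hle : G' ≤ G := by rw [hG']; exact deleteEdges_le _
      have hcard : G'.edgeFinset.card = n := by
        have : G'.edgeFinset = G.edgeFinset.erase s(x, y) := by
          ext e
          rw [mem_edgeFinset, Finset.mem_erase, mem_edgeFinset, hG', edgeSet_deleteEdges,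
            Set.mem_sdiff, Set.mem_singleton_iff, and_comm]
        rw [this, Finset.card_erase_of_mem he, hG]
        rfl
      have hdeg' : ∀ v, G'.degree v < Fintype.card K := fun v =>
        lt_of_le_of_lt (degree_le_of_le hle) (hdeg v)
      obtain ⟨c₀, hc₀⟩ := ih G' hcard hdeg'
      have hPP : PP G x y c₀ := by
        intro v a b ha hb hab ha' hb'
        apply hc₀ v a b _ _ hab
        · rw [hG', deleteEdges_adj]; exact ⟨ha, ha'⟩
        · rw [hG', deleteEdges_adj]; exact ⟨hb, hb'⟩
      exact extend G x y hxy c₀ hPP hdeg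

end Pool.Agent.Lib.MP_7b5b6d_co
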