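import Pool.Agent.Lib.MP_7b5b6d_co.Fan

/-!
# Zelinka's inequality: the colouring
-/

namespace Pool.Agent.Lib.MP_7b5b6d_co

open SimpleGraph Classical

universe u

variable {V : Type u} {K : Type}

/-- The copy of `v` used by the edge `vw` in the split graph. -/
noncomputable def idx (A : V → Finset V) (v w : V) : Option V := if w ∈ A v then none else some w

/-- The split graph: the edges at `v` which do not go to `A v` are detached from `v`. -/
noncomputable def splitG (H : SimpleGraph V) (A : V → Finset V) :
    SimpleGraph (V × Option V) where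
  Adj p q := H.Adj p.1 q.1 ∧ p.2 = idx A p.1 q.1 ∧ q.2 = idx A q.1 p.1
  symm := ⟨fun _ _ h => ⟨h.1.symm, h.2.2, h.2.1⟩⟩
  loopless := ⟨fun _ h => H.loopless.irrefl _ h.1⟩

theorem splitG_degree [Fintype V] [Fintype K] (H : SimpleGraph V) (A : V → Finset V)
    (hA : ∀ v, (A v).card < Fintype.card K) (hK : 2 ≤ Fintype.card K) (p : V × Option V) :
    (splitG H A).degree p < Fintype.card K := by
  obtain ⟨v, i⟩ := p
  rw [← card_neighborFinset_eq_degree]
  rcases i with _ | u
  · refine lt_of_le_of_lt ?_ (hA v)
    refine Finset.card_le_card_of_injOn (fun q => q.1) ?_ ?_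
    · intro q hq
      simp only [Finset.mem_coe, mem_neighborFinset] at hq
      have h := hq.2.1
      simp only [idx] at h
      by_contra hcon
      have hcon' : q.1 ∉ A v := hcon
      rw [if_neg hcon'] at h
      exact absurd h (by simp)
    · intro q hq q' hq' h
      simp only [Finset.mem_coe, mem_neighborFinset] at hq hq'
      have h' : q.1 = q'.1 := h
      refine Prod.ext h' ?_
      rw [hq.2.2, hq'.2.2, h']
  · refine lt_of_le_of_lt (b := 1) ?_ (by omega)
    have : ((splitG H A).neighborFinset (v, some u)).card ≤ ({u} : Finset V).card := by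
      refine Finset.card_le_card_of_injOn (fun q => q.1) ?_ ?_
      · intro q hq
        simp only [Finset.mem_coe, mem_neighborFinset] at hq
        have h := hq.2.1
        simp only [idx] at h
        split_ifs at h with hif
        simpa using h.symm
      · intro q hq q' hq' h
        simp only [Finset.mem_coe, mem_neighborFinset] at hq hq'
        have h' : q.1 = q'.1 := h
        refine Prod.ext h' ?_
        rw [hq.2.2, hq'.2.2, h']
    simpa using this

/-- Given a graph and at each vertex `v` a set `A v` of fewer than `|K|` neighbours, the edges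
can be coloured (with colours in `K`) so that for each `v` the edges from `v` to `A v` get
distinct colours. -/
theorem split_colouring [Fintype V] [Fintype K] [Nonempty K] (H : SimpleGraph V)
    (A : V → Finset V) (hAH : ∀ v, ∀ a ∈ A v, H.Adj v a)
    (hA : ∀ v, (A v).card < Fintype.card K) :
    ∃ c : Sym2 V → K, ∀ v, ∀ a ∈ A v, ∀ b ∈ A v, a ≠ b → c s(v, a) ≠ c s(v, b) := by
  by_cases hK : 2 ≤ Fintype.card K
  · obtain ⟨c', hc'⟩ := vizing (K := K) _ (splitG H A) rfl (splitG_degree H A hA hK)
    refine ⟨Sym2.lift ⟨fun v w => c' s((v, idx A v w), (w, idx A w v)), fun v w => ?_⟩, ?_⟩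
    · exact congrArg c' Sym2.eq_swap
    · intro v a ha b hb hab
      rw [Sym2.lift_mk, Sym2.lift_mk]
      have ha' : idx A v a = none := if_pos ha
      have hb' : idx A v b = none := if_pos hb
      show c' s((v, idx A v a), (a, idx A a v)) ≠ c' s((v, idx A v b), (b, idx A b v))
      rw [ha', hb']
      apply hc'
      · exact ⟨hAH v a ha, ha'.symm, rfl⟩
      · exact ⟨hAH v b hb, hb'.symm, rfl⟩
      · intro h
        exact hab (congrArg Prod.fst h)
  · refine ⟨fun _ => Classical.arbitrary K, ?_⟩
    intro v a ha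
    have := hA v
    have h0 : 0 < (A v).card := Finset.card_pos.mpr ⟨a, ha⟩
    omega

/-- A finite graph has a maximal independent set. -/
theorem exists_max_indep [Fintype V] (G : SimpleGraph V) :
    ∃ I : Finset V, (∀ a ∈ I, ∀ b ∈ I, ¬ G.Adj a b) ∧ ∀ v ∉ I, ∃ p ∈ I, G.Adj v p := by
  let F : Finset (Finset V) := Finset.univ.filter (fun I => ∀ a ∈ I, ∀ b ∈ I, ¬ G.Adj a b)
  have hF : F.Nonempty := ⟨∅, by simp [F]⟩
  obtain ⟨I, hI, hmax⟩ := Finset.exists_max_image F Finset.card hF
  have hI' : ∀ a ∈ I, ∀ b ∈ I, ¬ G.Adj a b := by simpa [F] using hI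
  refine ⟨I, hI', ?_⟩
  intro v hv
  by_contra hno
  push Not at hno
  have hmem : insert v I ∈ F := by
    simp only [F, Finset.mem_filter, Finset.mem_univ, true_and]
    intro a ha b hb
    rcases Finset.mem_insert.mp ha with ha1 | ha1
    · rcases Finset.mem_insert.mp hb with hb1 | hb1
      · rw [ha1, hb1]; exact G.loopless.irrefl _
      · rw [ha1]; exact hno b hb1
    · rcases Finset.mem_insert.mp hb with hb1 | hb1
      · rw [hb1]; intro h; exact hno a ha1 h.symm
      · exact hI' a ha1 b hb1
  have := hmax _ hmem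
  rw [Finset.card_insert_of_notMem hv] at this
  omega

/-- A function from a finset onto a smaller nonempty set of colours. -/
theorem exists_cover [Fintype K] [Nonempty K] (S : Finset V) (M : Finset K)
    (h : M.card ≤ S.card) : ∃ g : V → K, ∀ κ ∈ M, ∃ p ∈ S, g p = κ := by
  have : Nonempty (M ↪ S) := by
    rw [Function.Embedding.nonempty_iff_card_le]
    simpa using h
  obtain ⟨f⟩ := this
  refine ⟨fun p => if h : ∃ κ : M, (f κ : V) = p then (h.choose : K) else Classical.arbitrary K,
    ?_⟩
  intro κ hκ
  refine ⟨f ⟨κ, hκ⟩, (f ⟨κ, hκ⟩).2, ?_⟩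
  have hex : ∃ κ' : M, (f κ' : V) = f ⟨κ, hκ⟩ := ⟨⟨κ, hκ⟩, rfl⟩
  dsimp only
  rw [dif_pos hex]
  have h1 := hex.choose_spec
  have h2 : hex.choose = ⟨κ, hκ⟩ := f.injective (Subtype.ext h1)
  rw [h2]

/-- The main colouring: if every vertex of `G` has degree at least `|K|`, then there is a set
`W` of vertices meeting every edge and a colouring of the edges such that every vertex of
`W` is incident with edges of all colours. -/
theorem main_colouring [Fintype V] [Fintype K] [Nonempty K] (G : SimpleGraph V)
    (hdeg : ∀ v, Fintype.card K ≤ G.degree v) :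
    ∃ (W : Set V) (c : Sym2 V → K), (∀ a b, G.Adj a b → a ∈ W ∨ b ∈ W) ∧
      ∀ w ∈ W, ∀ κ : K, ∃ a, G.Adj w a ∧ c s(w, a) = κ := by
  obtain ⟨I, hI, hmax⟩ := exists_max_indep G
  set k := Fintype.card K with hk
  have hkpos : 0 < k := Fintype.card_pos
  -- neighbours outside `I`, and inside `I`
  let NW : V → Finset V := fun v => (G.neighborFinset v).filter (fun a => a ∉ I)
  let NI : V → Finset V := fun v => (G.neighborFinset v).filter (fun a => a ∈ I)
  have hsplit : ∀ v, (NI v).card + (NW v).card = G.degree v := by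
    intro v
    rw [← card_neighborFinset_eq_degree]
    exact Finset.card_filter_add_card_filter_not _
  have hex : ∀ v, ∃ A ⊆ NW v, A.card = min (NW v).card (k - 1) := by
    intro v
    exact Finset.exists_subset_card_eq (min_le_left _ _)
  choose A hAsub hAcard using hex
  have hAlt : ∀ v, (A v).card < k := by
    intro v
    rw [hAcard]
    have := min_le_right (NW v).card (k - 1)
    omega
  have hAadj : ∀ v, ∀ a ∈ A v, G.Adj v a := by
    intro v a ha
    have h := hAsub v ha
    simp only [NW, Finset.mem_filter, mem_neighborFinset] at h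
    exact h.1
  have hAI : ∀ v, ∀ a ∈ A v, a ∉ I := by
    intro v a ha
    have h := hAsub v ha
    simp only [NW, Finset.mem_filter, mem_neighborFinset] at h
    exact h.2
  obtain ⟨c₁, hc₁⟩ := split_colouring (K := K) G A hAadj hAlt
  -- the colours missing at `w`
  let M : V → Finset K := fun w => Finset.univ \ (A w).image (fun a => c₁ s(w, a))
  have hMcard : ∀ w, (M w).card = k - (A w).card := by
    intro w
    have h1 : ((A w).image (fun a => c₁ s(w, a))).card = (A w).card := by
      apply Finset.card_image_of_injOn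
      intro a ha b hb h
      by_contra hne
      exact hc₁ w a ha b hb hne h
    simp only [M]
    rw [Finset.card_sdiff_of_subset (Finset.subset_univ _), h1, Finset.card_univ]
  have hcov : ∀ w, w ∉ I → ∃ g : V → K, ∀ κ ∈ M w, ∃ p ∈ NI w, g p = κ := by
    intro w hw
    apply exists_cover
    rw [hMcard, hAcard]
    have h1 := hsplit w
    have h2 := hdeg w
    have h3 : 0 < (NI w).card := by
      obtain ⟨p, hp, hadj⟩ := hmax w hw
      apply Finset.card_pos.mpr
      refine ⟨p, ?_⟩
      simp only [NI, Finset.mem_filter, mem_neighborFinset]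
      exact ⟨hadj, hp⟩
    rcases min_cases (NW w).card (k - 1) with ⟨h4, _⟩ | ⟨h4, _⟩ <;> omega
  let g : V → V → K := fun w => if h : w ∉ I then (hcov w h).choose else fun _ =>
    Classical.arbitrary K
  have hg : ∀ w, w ∉ I → ∀ κ ∈ M w, ∃ p ∈ NI w, g w p = κ := by
    intro w hw
    simp only [g, dif_pos hw]
    exact (hcov w hw).choose_spec
  let f : V → V → K := fun a b =>
    if a ∈ I then (if b ∈ I then Classical.arbitrary K else g b a)
    else (if b ∈ I then g a b else c₁ s(a, b))
  have hf : ∀ a b, f a b = f b a := by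
    intro a b
    simp only [f]
    by_cases ha : a ∈ I <;> by_cases hb : b ∈ I <;> simp only [ha, hb, if_true, if_false]
    rw [Sym2.eq_swap]
  refine ⟨{v | v ∉ I}, Sym2.lift ⟨f, hf⟩, ?_, ?_⟩
  · intro a b hab
    by_contra hcon
    rw [not_or] at hcon
    exact hI a (not_not.mp hcon.1) b (not_not.mp hcon.2) hab
  · intro w hw κ
    have hw' : w ∉ I := hw
    by_cases hκ : κ ∈ M w
    · obtain ⟨p, hp, hgp⟩ := hg w hw' κ hκ
      simp only [NI, Finset.mem_filter, mem_neighborFinset] at hp
      refine ⟨p, hp.1, ?_⟩
      rw [Sym2.lift_mk]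
      show f w p = κ
      simp only [f, if_neg hw', if_pos hp.2]
      exact hgp
    · simp only [M, Finset.mem_sdiff, Finset.mem_univ, true_and, not_not,
        Finset.mem_image] at hκ
      obtain ⟨a, ha, hca⟩ := hκ
      refine ⟨a, hAadj w a ha, ?_⟩
      rw [Sym2.lift_mk]
      show f w a = κ
      simp only [f, if_neg hw', if_neg (hAI w a ha)]
      exact hca

end Pool.Agent.Lib.MP_7b5b6d_co
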