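import Mathlib

/-!
# Vizing's theorem for finite simple graphs

`vizing`: every finite simple graph all of whose degrees are smaller than the number of
colours has a proper edge colouring.  Colourings are functions `Sym2 V → K`.
-/

namespace Pool.Agent.Lib.MP_7b5b6d_co

open SimpleGraph Classical

universe u

variable {V : Type u} {K : Type}

/-- `c` is a proper edge colouring of `G`. -/
def Proper (G : SimpleGraph V) (c : Sym2 V → K) : Prop :=
  ∀ v a b, G.Adj v a → G.Adj v b → a ≠ b → c s(v, a) ≠ c s(v, b)

/-- `c` is a proper edge colouring of `G` minus the edge `xy`. -/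
def PP (G : SimpleGraph V) (x y : V) (c : Sym2 V → K) : Prop :=
  ∀ v a b, G.Adj v a → G.Adj v b → a ≠ b → s(v, a) ≠ s(x, y) → s(v, b) ≠ s(x, y) →
    c s(v, a) ≠ c s(v, b)

/-- the colour `κ` is missing at `v` in the colouring `c` of `G` minus `xy`. -/
def Miss (G : SimpleGraph V) (x y : V) (c : Sym2 V → K) (v : V) (κ : K) : Prop :=
  ∀ a, G.Adj v a → s(v, a) ≠ s(x, y) → c s(v, a) ≠ κ

/-- If a colour is missing at both ends of the uncoloured edge, use it. -/
theorem proper_update {G : SimpleGraph V} {x y : V} {c : Sym2 V → K} (hc : PP G x y c)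
    {κ : K} (hx : Miss G x y c x κ) (hy : Miss G x y c y κ) :
    Proper G (Function.update c s(x, y) κ) := by
  intro v a b ha hb hab
  by_cases h1 : s(v, a) = s(x, y)
  · have h2 : s(v, b) ≠ s(x, y) := by
      intro h2
      rw [← h1] at h2
      apply hab
      exact (Sym2.congr_right.mp h2).symm
    rw [h1, Function.update_self, Function.update_of_ne h2]
    have hv : v = x ∨ v = y := by
      have : v ∈ s(x, y) := by rw [← h1]; exact Sym2.mem_mk_left v a
      exact Sym2.mem_iff.mp this
    rcases hv with hv | hv
    · subst hv; exact (hx b hb h2).symm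
    · subst hv; exact (hy b hb h2).symm
  · by_cases h2 : s(v, b) = s(x, y)
    · rw [h2, Function.update_self, Function.update_of_ne h1]
      have hv : v = x ∨ v = y := by
        have : v ∈ s(x, y) := by rw [← h2]; exact Sym2.mem_mk_left v b
        exact Sym2.mem_iff.mp this
      rcases hv with hv | hv
      · subst hv; exact hx a ha h1
      · subst hv; exact hy a ha h1
    · rw [Function.update_of_ne h1, Function.update_of_ne h2]
      exact hc v a b ha hb hab h1 h2

/-- Shifting: colour `xy` with a colour `κ` missing at `y`, and uncolour the edge `xy'` which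
had the colour `κ`. -/
theorem shift_PP {G : SimpleGraph V} {x y y' : V} {c : Sym2 V → K} (hc : PP G x y c)
    {κ : K} (hy : Miss G x y c y κ) (hxy' : G.Adj x y') (hne : y' ≠ y)
    (hcol : c s(x, y') = κ) :
    PP G x y' (Function.update c s(x, y) κ) := by
  -- every edge other than `xy`, `xy'` meeting `xy` has a colour different from `κ`
  have hxy'ne : s(x, y') ≠ s(x, y) := by
    intro h; exact hne (Sym2.congr_right.mp h)
  have key : ∀ v b, (v = x ∨ v = y) → G.Adj v b → s(v, b) ≠ s(x, y) → s(v, b) ≠ s(x, y') →
      c s(v, b) ≠ κ := by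
    intro v b hv hb h1 h2
    rcases hv with hv | hv
    · subst hv
      rw [← hcol]
      apply hc v b y' hb hxy' _ h1 hxy'ne
      rintro rfl
      exact h2 rfl
    · subst hv
      exact hy b hb h1
  intro v a b ha hb hab ha' hb'
  by_cases h1 : s(v, a) = s(x, y)
  · have h2 : s(v, b) ≠ s(x, y) := by
      intro h2
      rw [← h1] at h2
      apply hab
      exact (Sym2.congr_right.mp h2).symm
    have hv : v = x ∨ v = y := by
      have : v ∈ s(x, y) := by rw [← h1]; exact Sym2.mem_mk_left v a
      exact Sym2.mem_iff.mp this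
    rw [h1, Function.update_self, Function.update_of_ne h2]
    exact (key v b hv hb h2 hb').symm
  · by_cases h2 : s(v, b) = s(x, y)
    · have hv : v = x ∨ v = y := by
        have : v ∈ s(x, y) := by rw [← h2]; exact Sym2.mem_mk_left v b
        exact Sym2.mem_iff.mp this
      rw [h2, Function.update_self, Function.update_of_ne h1]
      exact key v a hv ha h1 ha'
    · rw [Function.update_of_ne h1, Function.update_of_ne h2]
      exact hc v a b ha hb hab h1 h2

/-- Shifting does not change the colours missing at `x`. -/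
theorem shift_Miss {G : SimpleGraph V} {x y y' : V} {c : Sym2 V → K}
    {κ : K} (hxy' : G.Adj x y') (hne : y' ≠ y)
    (hcol : c s(x, y') = κ) {α : K} (hα : Miss G x y c x α) :
    Miss G x y' (Function.update c s(x, y) κ) x α := by
  have hxy'ne : s(x, y') ≠ s(x, y) := by
    intro h; exact hne (Sym2.congr_right.mp h)
  intro a ha h1
  by_cases h2 : s(x, a) = s(x, y)
  · rw [h2, Function.update_self, ← hcol]
    exact hα y' hxy' hxy'ne
  · rw [Function.update_of_ne h2]
    exact hα a ha h2

/-- The `αβ`-subgraph of `G` avoiding the vertex `x`. -/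
def Hs (G : SimpleGraph V) (x : V) (c : Sym2 V → K) (α β : K) : SimpleGraph V where
  Adj u v := G.Adj u v ∧ u ≠ x ∧ v ≠ x ∧ (c s(u, v) = α ∨ c s(u, v) = β)
  symm := ⟨fun u v h => ⟨h.1.symm, h.2.2.1, h.2.1, by rw [Sym2.eq_swap]; exact h.2.2.2⟩⟩
  loopless := ⟨fun u h => G.loopless.irrefl u h.1⟩

/-- The `αβ`-subgraph of `G - xy`. -/
def Ts (G : SimpleGraph V) (x y : V) (c : Sym2 V → K) (α β : K) : SimpleGraph V where
  Adj u v := G.Adj u v ∧ s(u, v) ≠ s(x, y) ∧ (c s(u, v) = α ∨ c s(u, v) = β)
  symm := ⟨fun u v h => ⟨h.1.symm, by rw [Sym2.eq_swap]; exact h.2.1,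
    by rw [Sym2.eq_swap]; exact h.2.2⟩⟩
  loopless := ⟨fun u h => G.loopless.irrefl u h.1⟩

/-- Kempe change: if `x` and `y` are in different `αβ`-components then `G` has a proper
colouring. -/
theorem kempe_reachable {G : SimpleGraph V} {x y : V} {c : Sym2 V → K} (hc : PP G x y c)
    {α β : K} (hα : Miss G x y c x α) (hβ : Miss G x y c y β)
    (hno : ¬ ∃ c : Sym2 V → K, Proper G c) : (Ts G x y c α β).Reachable y x := by
  by_contra hx
  apply hno
  set T := Ts G x y c α β with hT
  set S : Set V := {v | T.Reachable y v} with hS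
  have hyS : y ∈ S := Reachable.refl y
  have hxS : x ∉ S := hx
  let c' : Sym2 V → K := fun e => if ∃ v ∈ e, v ∈ S then Equiv.swap α β (c e) else c e
  have hin : ∀ v a, v ∈ S → c' s(v, a) = Equiv.swap α β (c s(v, a)) := by
    intro v a hv
    have : ∃ w ∈ s(v, a), w ∈ S := ⟨v, Sym2.mem_mk_left v a, hv⟩
    simp only [c', if_pos this]
  have hout : ∀ v a, v ∉ S → G.Adj v a → s(v, a) ≠ s(x, y) → c' s(v, a) = c s(v, a) := by
    intro v a hv ha hne
    by_cases h : ∃ w ∈ s(v, a), w ∈ S
    · have haS : a ∈ S := by
        obtain ⟨w, hw, hwS⟩ := h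
        rcases Sym2.mem_iff.mp hw with rfl | rfl
        · exact absurd hwS hv
        · exact hwS
      have hnot : ¬ (c s(v, a) = α ∨ c s(v, a) = β) := by
        intro hcol
        apply hv
        have hadj : T.Adj a v := by
          refine ⟨ha.symm, ?_, ?_⟩
          · rw [Sym2.eq_swap]; exact hne
          · rw [Sym2.eq_swap]; exact hcol
        exact Reachable.trans haS hadj.reachable
      push Not at hnot
      simp only [c', if_pos h]
      exact Equiv.swap_apply_of_ne_of_ne hnot.1 hnot.2
    · simp only [c', if_neg h]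
  have hPP : PP G x y c' := by
    intro v a b ha hb hab ha' hb'
    by_cases hv : v ∈ S
    · rw [hin v a hv, hin v b hv]
      intro h
      exact hc v a b ha hb hab ha' hb' ((Equiv.swap α β).injective h)
    · rw [hout v a hv ha ha', hout v b hv hb hb']
      exact hc v a b ha hb hab ha' hb'
  have h1 : Miss G x y c' x α := by
    intro a ha ha'
    rw [hout x a hxS ha ha']
    exact hα a ha ha'
  have h2 : Miss G x y c' y α := by
    intro a ha ha'
    rw [hin y a hyS]
    intro h
    apply hβ a ha ha'
    have := congrArg (Equiv.swap α β) h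
    simpa using this
  exact ⟨_, proper_update hPP h1 h2⟩

/-- In the situation of `kempe_reachable`, if `z` is the `β`-neighbour of `x`, then `z` and `y`
are joined by an `αβ`-path avoiding `x`. -/
theorem kempe {G : SimpleGraph V} {x y : V} {c : Sym2 V → K} (hc : PP G x y c)
    (hxy : G.Adj x y)
    {α β : K} (hα : Miss G x y c x α) (hβ : Miss G x y c y β)
    (hno : ¬ ∃ c : Sym2 V → K, Proper G c) {z : V} (hz : G.Adj x z) (hzy : z ≠ y)
    (hcz : c s(x, z) = β) : (Hs G x c α β).Reachable z y := by
  have hreach : (Ts G x y c α β).Reachable x y := (kempe_reachable hc hα hβ hno).symm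
  obtain ⟨p, hp⟩ := hreach.exists_isPath
  have hzxy : s(x, z) ≠ s(x, y) := by
    intro h; exact hzy (Sym2.congr_right.mp h)
  cases p with
  | nil => exact absurd hxy (G.loopless.irrefl _)
  | @cons _ w _ h q =>
    rw [Walk.cons_isPath_iff] at hp
    have hw : w = z := by
      by_contra hne
      obtain ⟨hadj, hne2, hcol⟩ := h
      rcases hcol with hcol | hcol
      · exact hα w hadj hne2 hcol
      · exact hc x w z hadj hz hne hne2 hzxy (hcol.trans hcz.symm)
    subst hw
    have hall : ∀ e ∈ q.edges, e ∈ (Hs G x c α β).edgeSet := by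
      intro e he
      induction e using Sym2.ind with
      | _ u v =>
        have hTadj : (Ts G x y c α β).Adj u v := Walk.adj_of_mem_edges q he
        have hu : u ∈ q.support := Walk.fst_mem_support_of_mem_edges q he
        have hv : v ∈ q.support := Walk.snd_mem_support_of_mem_edges q he
        rw [mem_edgeSet]
        refine ⟨hTadj.1, ?_, ?_, hTadj.2.2⟩
        · rintro rfl; exact hp.2 hu
        · rintro rfl; exact hp.2 hv
    exact ⟨q.transfer _ hall⟩

/-- A connected graph of maximum degree at most two has at most two vertices of degree at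
most one. -/
theorem conn_endpoints {W : Type u} [Fintype W] (H : SimpleGraph W) (hconn : H.Connected)
    (hdeg : ∀ v, H.degree v ≤ 2) {a b c : W} (hab : a ≠ b) (hac : a ≠ c) (hbc : b ≠ c)
    (ha : H.degree a ≤ 1) (hb : H.degree b ≤ 1) (hc : H.degree c ≤ 1) : False := by
  have h1 := hconn.card_vert_le_card_edgeSet_add_one
  have h2 : ∑ v, H.degree v = 2 * H.edgeFinset.card := sum_degrees_eq_twice_card_edges _
  have h4 : Nat.card H.edgeSet = H.edgeFinset.card := by
    rw [Nat.card_eq_fintype_card, edgeFinset_card]
  have h5 : Nat.card W = Fintype.card W := Nat.card_eq_fintype_card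
  rw [h4, h5] at h1
  have h6 : ∑ v, (H.degree v + if v = a ∨ v = b ∨ v = c then 1 else 0) ≤ ∑ v : W, 2 := by
    apply Finset.sum_le_sum
    intro v _
    split_ifs with h
    · rcases h with rfl | rfl | rfl <;> omega
    · have := hdeg v; omega
  rw [Finset.sum_add_distrib, h2, Finset.sum_boole, Finset.sum_const, Finset.card_univ] at h6
  have h7 : (Finset.univ.filter (fun v => v = a ∨ v = b ∨ v = c)).card = 3 := by
    have : Finset.univ.filter (fun v => v = a ∨ v = b ∨ v = c) = {a, b, c} := by
      ext v; simp
    rw [this, Finset.card_eq_three]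
    exact ⟨a, b, c, hab, hac, hbc, rfl⟩
  rw [h7] at h6
  simp only [smul_eq_mul, Nat.cast_ofNat] at h6
  omega

/-- A connected component of a graph of maximum degree at most two has at most two vertices
of degree at most one. -/
theorem three_endpoints {V : Type u} [Fintype V] (H : SimpleGraph V)
    (hdeg : ∀ v, H.degree v ≤ 2) {a b c : V} (hab : a ≠ b) (hac : a ≠ c) (hbc : b ≠ c)
    (ha : H.degree a ≤ 1) (hb : H.degree b ≤ 1) (hc : H.degree c ≤ 1)
    (r1 : H.Reachable a b) (r2 : H.Reachable a c) : False := by
  let S : Set V := {v | H.Reachable a v}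
  have haS : a ∈ S := Reachable.refl a
  have hle : ∀ v : S, (H.induce S).degree v ≤ H.degree (v : V) := by
    intro v
    rw [← card_neighborFinset_eq_degree, ← card_neighborFinset_eq_degree]
    refine Finset.card_le_card_of_injOn (fun w => (w : V)) ?_ ?_
    · intro w hw
      simp only [Finset.mem_coe, mem_neighborFinset] at hw ⊢
      exact hw
    · intro w _ w' _ h
      exact Subtype.ext h
  have hconn : (H.induce S).Connected := by
    have : Nonempty S := ⟨⟨a, haS⟩⟩
    have key : ∀ v : S, (H.induce S).Reachable ⟨a, haS⟩ v := by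
      rintro ⟨v, hv⟩
      obtain ⟨p⟩ := hv
      refine ⟨p.induce S ?_⟩
      intro w hw
      exact (p.takeUntil w hw).reachable
    have hpre : (H.induce S).Preconnected := fun u v => (key u).symm.trans (key v)
    exact ⟨hpre⟩
  exact conn_endpoints (H.induce S) hconn (fun v => (hle v).trans (hdeg v))
    (a := ⟨a, haS⟩) (b := ⟨b, r1⟩) (c := ⟨c, r2⟩)
    (fun h => hab (congrArg Subtype.val h)) (fun h => hac (congrArg Subtype.val h))
    (fun h => hbc (congrArg Subtype.val h))
    ((hle _).trans ha) ((hle _).trans hb) ((hle _).trans hc)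

/-- Degree bounds in the `αβ`-graph avoiding `x`. -/
theorem Hs_degree_le {V : Type u} [Fintype V] {G : SimpleGraph V} {x y : V}
    {c : Sym2 V → K} (hc : PP G x y c) (α β : K) (v : V) : (Hs G x c α β).degree v ≤ 2 := by
  rw [← card_neighborFinset_eq_degree]
  have h : ((Hs G x c α β).neighborFinset v).card ≤ ({α, β} : Finset K).card := by
    refine Finset.card_le_card_of_injOn (fun w => c s(v, w)) ?_ ?_
    · intro w hw
      simp only [Finset.mem_coe, mem_neighborFinset] at hw
      simpa using hw.2.2.2
    · intro w hw w' hw' h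
      simp only [Finset.mem_coe, mem_neighborFinset] at hw hw'
      by_contra hne
      refine hc v w w' hw.1 hw'.1 hne ?_ ?_ h
      · intro h'
        have : x ∈ s(v, w) := by rw [h']; exact Sym2.mem_mk_left _ _
        rcases Sym2.mem_iff.mp this with h1 | h1
        · exact hw.2.1 h1.symm
        · exact hw.2.2.1 h1.symm
      · intro h'
        have : x ∈ s(v, w') := by rw [h']; exact Sym2.mem_mk_left _ _
        rcases Sym2.mem_iff.mp this with h1 | h1
        · exact hw'.2.1 h1.symm
        · exact hw'.2.2.1 h1.symm
  exact h.trans Finset.card_le_two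

/-- If one of the two colours does not occur at `v` (in `G` minus `x`), the degree is at most
one. -/
theorem Hs_degree_le_one {V : Type u} [Fintype V] {G : SimpleGraph V} {x y : V}
    {c : Sym2 V → K} (hc : PP G x y c) (α β : K) (v : V)
    (hβ : ∀ w, G.Adj v w → v ≠ x → w ≠ x → c s(v, w) ≠ β) :
    (Hs G x c α β).degree v ≤ 1 := by
  rw [← card_neighborFinset_eq_degree]
  have h : ((Hs G x c α β).neighborFinset v).card ≤ ({α} : Finset K).card := by
    refine Finset.card_le_card_of_injOn (fun w => c s(v, w)) ?_ ?_
    · intro w hw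
      simp only [Finset.mem_coe, mem_neighborFinset] at hw
      rcases hw.2.2.2 with h | h
      · simpa using h
      · exact absurd h (hβ w hw.1 hw.2.1 hw.2.2.1)
    · intro w hw w' hw' h
      simp only [Finset.mem_coe, mem_neighborFinset] at hw hw'
      by_contra hne
      refine hc v w w' hw.1 hw'.1 hne ?_ ?_ h
      · intro h'
        have : x ∈ s(v, w) := by rw [h']; exact Sym2.mem_mk_left _ _
        rcases Sym2.mem_iff.mp this with h1 | h1
        · exact hw.2.1 h1.symm
        · exact hw.2.2.1 h1.symm
      · intro h'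
        have : x ∈ s(v, w') := by rw [h']; exact Sym2.mem_mk_left _ _
        rcases Sym2.mem_iff.mp this with h1 | h1
        · exact hw'.2.1 h1.symm
        · exact hw'.2.2.1 h1.symm
  simpa using h

end Pool.Agent.Lib.MP_7b5b6d_co
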